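import Pool.Agent.H.MP_22b8ff_nt.B

set_option autoImplicit false

namespace Pool.Agent.Results.MP_22b8ff_nt.LowDisc

/-- the van der Corput sequence in base `p` -/
noncomputable def vdc (p n : ℕ) : ℝ := ∑' i : ℕ, ((n / p ^ i % p : ℕ) : ℝ) / (p : ℝ) ^ (i + 1)

open Classical in
/-- the discrepancy of the first `N` terms of the hybrid sequence -/
noncomputable def disc (p : ℕ) (α : ℝ) (N : ℕ) : ℝ :=
  sSup {d | ∃ a ∈ Set.Icc (0 : ℝ) 1, ∃ b ∈ Set.Icc (0 : ℝ) 1,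
    d = |(((Finset.range N).filter fun n : ℕ =>
      Int.fract (n * α) ∈ Set.Ico 0 a ∧ vdc p n ∈ Set.Ico 0 b).card : ℝ) / N - a * b|}

open Classical in
theorem result (p : ℕ) (hp : p.Prime) (α : ℝ)
    (h : ∃ c : ℝ, 0 < c ∧ ∀ q : ℕ, 1 ≤ q →
      c ≤ q * (padicNorm p q : ℝ) * |q * α - round (q * α)|) :
    ∃ C : ℝ, ∀ N : ℕ, 2 ≤ N →
      (∀ a ∈ Set.Icc (0 : ℝ) 1, ∀ b ∈ Set.Icc (0 : ℝ) 1,
        |(((Finset.range N).filter fun n : ℕ =>
          Int.fract (n * α) ∈ Set.Ico 0 a ∧ vdc p n ∈ Set.Ico 0 b).card : ℝ) / N - a * b|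
          ≤ C * Real.log N ^ 2 / N) ∧
      disc p α N ≤ C * Real.log N ^ 2 / N := by
  obtain ⟨c, hc, h⟩ := h
  haveI := Fact.mk hp
  have hp0 : (0 : ℝ) < p := by exact_mod_cast hp.pos
  obtain ⟨C, hC⟩ := Pool.Agent.H.MP_22b8ff_nt.main hp.one_lt (α := α) hc (fun j q hq => by
    have h1 := h (p ^ j * q) (Nat.mul_pos (pow_pos hp.pos j) hq)
    have h2 : (padicNorm p ((p ^ j * q : ℕ) : ℚ)) ≤ (p : ℚ) ^ (-j : ℤ) := by
      have := (padicNorm.dvd_iff_norm_le (p := p) (n := j) (z := ((p ^ j * q : ℕ) : ℤ))).mp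
        (by exact_mod_cast Dvd.intro q rfl)
      exact_mod_cast this
    have h3 : ((padicNorm p ((p ^ j * q : ℕ) : ℚ) : ℚ) : ℝ) ≤ ((p : ℝ) ^ j)⁻¹ := by
      rw [zpow_neg, zpow_natCast] at h2
      have := (Rat.cast_le (K := ℝ)).mpr h2
      simpa only [Rat.cast_inv, Rat.cast_pow, Rat.cast_natCast] using this
    have h4 : ((p ^ j * q : ℕ) : ℝ) * α = q * (p ^ j * α) := by push_cast; ring
    rw [h4] at h1
    refine h1.trans (mul_le_mul_of_nonneg_right ?_ (abs_nonneg _))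
    calc _ ≤ ((p ^ j * q : ℕ) : ℝ) * ((p : ℝ) ^ j)⁻¹ :=
          mul_le_mul_of_nonneg_left h3 (Nat.cast_nonneg _)
      _ = q := by push_cast; field_simp)
  refine ⟨C, fun N hN => ?_⟩
  have hN0 : (0 : ℝ) < N := by exact_mod_cast (by omega : 0 < N)
  have key : ∀ a ∈ Set.Icc (0 : ℝ) 1, ∀ b ∈ Set.Icc (0 : ℝ) 1,
        |(((Finset.range N).filter fun n : ℕ =>
          Int.fract (n * α) ∈ Set.Ico 0 a ∧ vdc p n ∈ Set.Ico 0 b).card : ℝ) / N - a * b|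
          ≤ C * Real.log N ^ 2 / N := by
    intro a ha b hb
    have h1 := hC N hN a b ha.1 ha.2 hb.1 hb.2
    rw [le_div_iff₀ hN0, ← abs_of_pos hN0, ← abs_mul, abs_of_pos hN0, sub_mul,
      div_mul_cancel₀ _ hN0.ne', Finset.card_filter]
    refine le_of_eq_of_le ?_ h1
    congr 2
    push_cast
    refine Finset.sum_congr rfl fun n _ => ?_
    have h2 := Int.fract_nonneg (n * α)
    have h3 : 0 ≤ vdc p n := (Pool.Agent.H.MP_22b8ff_nt.vdc_bd hp.one_lt n).1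
    change _ = _ * (if vdc p n < b then 1 else 0)
    simp only [Set.mem_Ico, h2, h3, true_and]
    split_ifs <;> simp_all
  refine ⟨key, csSup_le ⟨_, 0, by simp, 0, by simp, rfl⟩ ?_⟩
  rintro _ ⟨a, ha, b, hb, rfl⟩
  exact key a ha b hb

end Pool.Agent.Results.MP_22b8ff_nt.LowDisc
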